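import Pool.Agent.helper83.FI4B.Spec

/-!
# Project fi4, version FI4+ (MP_baa4d7_al), row BPS: the signs modulo `p ^ 2`
-/

set_option autoImplicit false

namespace Pool.Agent.FI4B

open Pool.Agent.helper58.DC Pool.Agent.DI Pool.Agent.GR Pool.Agent.OB Pool.Agent.DR Pool.Agent.FI Pool.Agent.FI3 Pool.Agent.FI4

theorem BPS_nu (hLCG : LCG_stmt) (hLCO : LCO_stmt) (p : ℕ) (M : Ideal (integralClosure ℤ ℂ)) (hM : Setup p M) (D : Type)
    [CommGroup D] [Fintype D] (X : Type) [Fintype X] (R : Set D) (I : Subgroup (MulAut D)) (β d : X → D → ℂ) (n : D → ℤ)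
    (hpg : IsPGroup p D) (hfr : ∀ t ∈ I, ∀ u ∈ R, t u = u → t = 1) (hL : ∀ χ, LGC (β χ))
    (hinv : ∀ χ, ∀ t ∈ I, ∀ u, β χ (t u) = β χ u) (hbn : ∀ χ, ∀ u ∈ R, β χ u = (n u : ℂ) * d χ u)
    (horth : ∀ u ∈ R, ∀ a, (∀ t ∈ I, t u ≠ a) → ∑ χ, β χ a * (starRingEnd ℂ) (β χ u) = 0)
    (hdd : ∀ u ∈ R, ∑ χ, d χ u * (starRingEnd ℂ) (d χ u) = (Nat.card D : ℂ))
    (hpi : ∀ s : ℕ, ¬ p ∣ s → ∃ π : Equiv.Perm X, ∀ χ u, β χ (u ^ s) = β (π χ) u) :
    ∃ κ : D → ℂ, LGC κ ∧ (∀ u ∈ R, κ u = (Nat.card I : ℂ) * (n u : ℂ) ^ 2) ∧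
      ∀ s : ℕ, ¬ p ∣ s → ∀ u, κ (u ^ s) = κ u := by
  classical
  obtain ⟨hconst, -, -, -, -, hmul, hconj, -, hsum⟩ := hLCG D
  have hc : ∀ χ, ∃ m : ℤ, ∑ u, β χ u = (Nat.card D : ℂ) * m := fun χ => by
    obtain ⟨m, hm⟩ := (hLCO p M D (β χ) hM hpg (hL χ)).1 1
    refine ⟨m, ?_⟩
    simpa only [lv_hone, mul_one] using hm
  choose c hc using hc
  have hD : (Nat.card D : ℂ) ≠ 0 := Nat.cast_ne_zero.2 Nat.card_pos.ne'
  have : Fintype I := Fintype.ofFinite _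
  refine ⟨fun u => ∑ χ, (c χ : ℂ) * (starRingEnd ℂ) (β χ u), ?_, fun u hu => ?_, fun s hs u => ?_⟩
  · exact hsum X (fun χ u => (c χ : ℂ) * (starRingEnd ℂ) (β χ u)) fun χ =>
      hmul _ _ (hconst (c χ)) (hconj _ (hL χ))
  · have h1 : (Nat.card D : ℂ) * ∑ χ, (c χ : ℂ) * (starRingEnd ℂ) (β χ u)
        = ∑ a, ∑ χ, β χ a * (starRingEnd ℂ) (β χ u) := by
      rw [Finset.sum_comm, Finset.mul_sum]
      refine Finset.sum_congr rfl fun χ _ => ?_
      rw [← Finset.sum_mul, hc χ]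
      ring
    have hinj : Function.Injective (fun t : I => (t : MulAut D) u) := by
      intro t t' htt
      have h2 : ((t' : MulAut D)⁻¹ * (t : MulAut D)) u = u := by
        rw [MulAut.mul_apply]
        have h3 : (t : MulAut D) u = (t' : MulAut D) u := htt
        rw [h3, MulAut.inv_apply_self]
      have h4 := hfr _ (I.mul_mem (I.inv_mem t'.2) t.2) u hu h2
      exact Subtype.ext (inv_mul_eq_one.1 h4).symm
    have h2 : ∑ a, ∑ χ, β χ a * (starRingEnd ℂ) (β χ u)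
        = ∑ t : I, ∑ χ, β χ ((t : MulAut D) u) * (starRingEnd ℂ) (β χ u) := by
      rw [← Finset.sum_image (s := Finset.univ) (g := fun t : I => (t : MulAut D) u)
        (f := fun a => ∑ χ, β χ a * (starRingEnd ℂ) (β χ u)) (fun t _ t' _ htt => hinj htt)]
      refine (Finset.sum_subset (Finset.subset_univ _) fun a _ ha => ?_).symm
      refine horth u hu a fun t ht hta => ha ?_
      exact Finset.mem_image.2 ⟨⟨t, ht⟩, Finset.mem_univ _, hta⟩
    have h3 : ∀ t : I, ∑ χ, β χ ((t : MulAut D) u) * (starRingEnd ℂ) (β χ u)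
        = (n u : ℂ) ^ 2 * (Nat.card D : ℂ) := fun t => by
      rw [← hdd u hu, Finset.mul_sum]
      refine Finset.sum_congr rfl fun χ _ => ?_
      rw [hinv χ t t.2 u, hbn χ u hu, map_mul]
      simp only [map_intCast]
      ring
    have h4 : (Nat.card D : ℂ) * ∑ χ, (c χ : ℂ) * (starRingEnd ℂ) (β χ u)
        = (Nat.card D : ℂ) * ((Nat.card I : ℂ) * (n u : ℂ) ^ 2) := by
      rw [h1, h2, Finset.sum_congr rfl fun t _ => h3 t, Finset.sum_const, Finset.card_univ,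
        nsmul_eq_mul, Nat.card_eq_fintype_card (α := I)]
      ring
    exact mul_left_cancel₀ hD h4
  · obtain ⟨π, hπ⟩ := hpi s hs
    have hcop : (Nat.card D).Coprime s := by
      haveI : Fact p.Prime := ⟨hM.pr⟩
      obtain ⟨k, hk⟩ := (IsPGroup.iff_card).1 hpg
      rw [hk]
      exact Nat.Coprime.pow_left k ((Nat.Prime.coprime_iff_not_dvd hM.pr).2 hs)
    have hcπ : ∀ χ, c (π χ) = c χ := by
      intro χ
      have h1 : ∑ a, β (π χ) a = ∑ a, β χ a := by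
        rw [← (powCoprime hcop).sum_comp (fun a => β χ a)]
        refine Finset.sum_congr rfl fun a _ => ?_
        rw [powCoprime_apply, hπ]
      rw [hc, hc] at h1
      have h2 := mul_left_cancel₀ hD h1
      exact_mod_cast h2
    change ∑ χ, (c χ : ℂ) * (starRingEnd ℂ) (β χ (u ^ s)) = ∑ χ, (c χ : ℂ) * (starRingEnd ℂ) (β χ u)
    rw [← Equiv.sum_comp π (fun χ => (c χ : ℂ) * (starRingEnd ℂ) (β χ u))]
    refine Finset.sum_congr rfl fun χ _ => ?_
    rw [hπ, hcπ]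

theorem BPS (hLCG : LCG_stmt) (hLCO : LCO_stmt) (hBOR : BOR_stmt) : BPS_stmt := by
  intro p M hM hp2 D _ _ X _ R I β d n hpg hcop hfr hL hinv hbn hpn horth hdd hpi
  classical
  obtain ⟨κ, hκ, hκ2, hκs⟩ := BPS_nu hLCG hLCO p M hM D X R I β d n hpg hfr hL hinv hbn horth hdd hpi
  by_cases hR : ∃ u₀, u₀ ∈ R
  · obtain ⟨u₀, hu₀⟩ := hR
    have hp : Prime (p : ℤ) := Nat.prime_iff_prime_int.1 hM.pr
    have hdvd : ∀ u ∈ R, (p : ℤ) ∣ n u - n u₀ ∨ (p : ℤ) ∣ n u + n u₀ := by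
      intro u hu
      have h1 := (hLCO p M D κ hM hpg hκ).2.2
      have h2 := InM.sub hM (h1 u) (h1 u₀)
      have h3 : κ u - κ 1 - (κ u₀ - κ 1) = (((Nat.card I : ℤ) * ((n u - n u₀) * (n u + n u₀)) : ℤ) : ℂ) := by
        rw [hκ2 u hu, hκ2 u₀ hu₀]
        push_cast
        ring
      rw [h3, InM.intCast hM] at h2
      rcases hp.dvd_or_dvd h2 with h4 | h4
      · exact absurd (Int.natCast_dvd_natCast.1 h4) hcop
      · exact hp.dvd_or_dvd h4
    have hcg : ∀ u ∈ R, (p : ℤ) ∣ (if (p : ℤ) ∣ n u - n u₀ then (1 : ℤ) else -1) * n u - n u₀ := by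
      intro u hu
      split_ifs with h1
      · rw [one_mul]
        exact h1
      · rcases hdvd u hu with h2 | h2
        · exact absurd h2 h1
        · have h3 : -1 * n u - n u₀ = -(n u + n u₀) := by ring
          rw [h3]
          exact (dvd_neg).2 h2
    have hε : ∀ u, (if (p : ℤ) ∣ n u - n u₀ then (1 : ℤ) else -1) = 1 ∨
        (if (p : ℤ) ∣ n u - n u₀ then (1 : ℤ) else -1) = -1 := by
      intro u
      split_ifs
      · exact Or.inl rfl
      · exact Or.inr rfl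
    refine ⟨fun u => if (p : ℤ) ∣ n u - n u₀ then 1 else -1, hε, ?_⟩
    intro χ hχ
    obtain ⟨-, -, -, -, -, hmul, -, hpow, -⟩ := hLCG D
    obtain ⟨k, hk⟩ : ∃ k, p = 2 * k + 1 := by
      rcases hM.pr.eq_two_or_odd' with h | h
      · exact absurd h hp2
      · exact h
    obtain ⟨c₀, b₀, hcb⟩ := hBOR p hM.pr D hpg (fun u => β χ u * κ u ^ k) (hmul _ _ (hL χ) (hpow _ k hκ))
      (fun s hs u => by rw [hχ s hs u, hκs s hs u])
    set w : ℤ := (Nat.card I : ℤ) ^ k * n u₀ ^ p with hw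
    have hwc : IsCoprime w ((p : ℤ) ^ 2) := by
      refine IsCoprime.pow_right ?_
      refine IsCoprime.mul_left (IsCoprime.pow_left ?_) (IsCoprime.pow_left ?_)
      · exact ((Prime.coprime_iff_not_dvd hp).2 (fun h => hcop (Int.natCast_dvd_natCast.1 h))).symm
      · exact ((Prime.coprime_iff_not_dvd hp).2 (hpn u₀ hu₀)).symm
    obtain ⟨w', v, hwv⟩ := hwc
    refine ⟨w' * c₀, fun V => w' * b₀ V, fun u hu f hf => ?_⟩
    obtain ⟨z, hz, hzd⟩ := hcb u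
    change (p : ℤ) ^ 2 ∣ (if (p : ℤ) ∣ n u - n u₀ then (1 : ℤ) else -1) * f -
      (w' * c₀ + p * ∑ᶠ V ∈ {V : Subgroup D | V.index = p ∧ u ∈ V}, w' * b₀ V)
    have hg := hcg u hu
    have he := hε u
    set e : ℤ := (if (p : ℤ) ∣ n u - n u₀ then (1 : ℤ) else -1) with hee
    have hz2 : z = (Nat.card I : ℤ) ^ k * (e * n u) ^ p * (e * f) := by
      have h1 : (z : ℂ) = (((Nat.card I : ℤ) ^ k * (n u) ^ p * f : ℤ) : ℂ) := by
        rw [← hz]
        change β χ u * κ u ^ k = _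
        rw [hbn χ u hu, hκ2 u hu, hf, hk]
        push_cast
        ring
      have h2 : z = (Nat.card I : ℤ) ^ k * (n u) ^ p * f := by exact_mod_cast h1
      rw [h2]
      have h3 : e ^ 2 = 1 := by
        rcases he with h | h <;> rw [h] <;> norm_num
      have h4 : e ^ (p + 1) = 1 := by
        have : p + 1 = 2 * (k + 1) := by omega
        rw [this, pow_mul, h3, one_pow]
      calc (Nat.card I : ℤ) ^ k * (n u) ^ p * f = (Nat.card I : ℤ) ^ k * (n u) ^ p * f * e ^ (p + 1) := by rw [h4, mul_one]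
        _ = _ := by rw [mul_pow]; ring
    have h5 : (p : ℤ) ^ 2 ∣ (e * n u) ^ p - n u₀ ^ p := by
      have := dvd_sub_pow_of_dvd_sub (R := ℤ) (p := p) (a := e * n u) (b := n u₀) hg 1
      simpa using this
    have h6 : (p : ℤ) ^ 2 ∣ w * (e * f) - (c₀ + p * ∑ᶠ V ∈ {V : Subgroup D | V.index = p ∧ u ∈ V}, b₀ V) := by
      have h7 : w * (e * f) - (c₀ + p * ∑ᶠ V ∈ {V : Subgroup D | V.index = p ∧ u ∈ V}, b₀ V) =
          (z - (c₀ + p * ∑ᶠ V ∈ {V : Subgroup D | V.index = p ∧ u ∈ V}, b₀ V)) -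
            ((e * n u) ^ p - n u₀ ^ p) * ((Nat.card I : ℤ) ^ k * (e * f)) := by
        rw [hz2, hw]; ring
      rw [h7]
      exact dvd_sub hzd (h5.mul_right _)
    have h8 : ∑ᶠ V ∈ {V : Subgroup D | V.index = p ∧ u ∈ V}, w' * b₀ V =
        w' * ∑ᶠ V ∈ {V : Subgroup D | V.index = p ∧ u ∈ V}, b₀ V := by
      exact (mul_finsum_mem _ _).symm
    rw [h8]
    have h9 : e * f - (w' * c₀ + p * (w' * ∑ᶠ V ∈ {V : Subgroup D | V.index = p ∧ u ∈ V}, b₀ V)) =
        w' * (w * (e * f) - (c₀ + p * ∑ᶠ V ∈ {V : Subgroup D | V.index = p ∧ u ∈ V}, b₀ V)) +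
          (p : ℤ) ^ 2 * (v * (e * f)) := by
      have : w' * w = 1 - v * (p : ℤ) ^ 2 := by linarith
      linear_combination (-(e * f)) * this
    rw [h9]
    exact dvd_add (h6.mul_left _) (dvd_mul_right _ _)
  · exact ⟨fun _ => 1, fun _ => Or.inl rfl, fun χ _ => ⟨0, 0, fun u hu => absurd ⟨u, hu⟩ hR⟩⟩

end Pool.Agent.FI4B
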