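import Pool.Agent.helper83.FI4B.SpecE2

/-!
# Project fi4, version FI4+ (MP_baa4d7_al), row BTR: the traces of the powers of an automorphism
-/

set_option autoImplicit false

namespace Pool.Agent.FI4B

open Pool.Agent.helper58.DC Pool.Agent.DI Pool.Agent.GR Pool.Agent.OB Pool.Agent.DR Pool.Agent.FI Pool.Agent.FI3 Pool.Agent.FI4 Pool.Agent.FI4I Pool.Agent.FI4E

section

variable {ι : Type} [Fintype ι] [DecidableEq ι]

/-- permutation matrix -/
def BTR_pm (σ : Equiv.Perm ι) : Matrix ι ι ℂ := fun φ ψ => if ψ = σ φ then 1 else 0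

theorem BTR_left (σ : Equiv.Perm ι) (A : Matrix ι ι ℂ) (φ ψ : ι) : (BTR_pm σ * A) φ ψ = A (σ φ) ψ := by
  rw [Matrix.mul_apply, Finset.sum_eq_single (σ φ)]
  · unfold BTR_pm
    rw [if_pos rfl, one_mul]
  · intro b _ hb
    unfold BTR_pm
    rw [if_neg hb, zero_mul]
  · intro h
    exact absurd (Finset.mem_univ _) h

theorem BTR_right (σ : Equiv.Perm ι) (A : Matrix ι ι ℂ) (φ ψ : ι) : (A * BTR_pm σ) φ (σ ψ) = A φ ψ := by
  rw [Matrix.mul_apply, Finset.sum_eq_single ψ]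
  · unfold BTR_pm
    rw [if_pos rfl, mul_one]
  · intro b _ hb
    unfold BTR_pm
    rw [if_neg fun h => hb (σ.injective h).symm, mul_zero]
  · intro h
    exact absurd (Finset.mem_univ _) h

theorem BTR_one : BTR_pm (1 : Equiv.Perm ι) = 1 := by
  ext φ ψ
  rw [Matrix.one_apply]
  unfold BTR_pm
  by_cases h : φ = ψ
  · rw [if_pos h, if_pos]
    rw [h]
    rfl
  · rw [if_neg h, if_neg]
    intro h1
    exact h h1.symm

theorem BTR_pow (σ : Equiv.Perm ι) (j : ℕ) : BTR_pm σ ^ j = BTR_pm (σ ^ j) := by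
  induction j with
  | zero => rw [pow_zero, pow_zero, BTR_one]
  | succ j ih =>
    rw [pow_succ', pow_succ', ih]
    ext φ ψ
    rw [BTR_left]
    unfold BTR_pm
    have h1 : (σ ^ j) (σ φ) = (σ * σ ^ j) φ := by
      rw [← pow_succ', pow_succ]
      rfl
    rw [h1]

theorem BTR_trace (σ : Equiv.Perm ι) (E : Matrix ι ι ℂ) :
    Matrix.trace (E * BTR_pm σ) = ∑ ψ : ι, E (σ ψ) ψ := by
  unfold Matrix.trace
  rw [← Equiv.sum_comp σ]
  refine Finset.sum_congr rfl fun ψ _ => ?_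
  rw [Matrix.diag_apply, BTR_right]

end

theorem BTR (hBTP : BTP_stmt) (hRAT : RAT_stmt) (hQEI : QEI_stmt) (hBCL : BCL_stmt) (hB2 : B2_stmt)
    (hBAA : BAA_stmt) (hIM : IM_stmt) : BTR_stmt := by
  classical
  intro p M hM G _ _ χ H α hαH hst m hm hα
  have hirr : ∀ (γ : MulAut G) (L : Subgroup G) (ψ : G → ℂ), ψ ∈ IrrOn L ↔ funMap γ ψ ∈ IrrOn (am γ L) :=
    fun γ L ψ => (hBAA G M p γ L L L χ ψ χ).2.2.1
  have hEE : ∀ η ψ : G → ℂ, EE p H (funMap α η) (funMap α ψ) = EE p H η ψ := by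
    intro η ψ
    have h1 := (hBAA G M p α H H H η ψ χ).2.2.2.2.2.2.1
    rw [hαH] at h1
    exact h1
  have hBfin : (Blk M χ H).Finite := (hB2 G H).1.subset fun ψ hψ => hψ.1
  have hmem : ∀ ψ ∈ Blk M χ H, funMap α ψ ∈ Blk M χ H := by
    intro ψ hψ
    refine ⟨?_, ?_⟩
    · have h1 := (hirr α H ψ).1 hψ.1
      rw [hαH] at h1
      exact h1
    · exact (hIM G M (funMap α ψ) (funMap α χ) χ).2.2.1
        (((hIM G M ψ χ χ).2.2.2 α).2 hψ.2) hst
  have hinj : ∀ ψ ψ' : G → ℂ, funMap α ψ = funMap α ψ' → ψ = ψ' := by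
    intro ψ ψ' h
    funext x
    have h1 := congrFun h (α x)
    simp only [funMap] at h1
    rw [MulAut.inv_apply_self] at h1
    exact h1
  let ι : Type := Blk M χ H
  have _f : Fintype ι := hBfin.fintype
  let f : ι → ι := fun ψ => ⟨funMap α ψ.1, hmem ψ.1 ψ.2⟩
  have hf : Function.Injective f := by
    intro a b hab
    apply Subtype.ext
    exact hinj _ _ (congrArg Subtype.val hab)
  let σ : Equiv.Perm ι := Equiv.ofBijective f (Finite.injective_iff_bijective.1 hf)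
  have hσ : ∀ ψ : ι, ((σ ψ : ι) : G → ℂ) = funMap α (ψ : G → ℂ) := fun ψ => rfl
  have hσj : ∀ (j : ℕ) (ψ : ι), (((σ ^ j) ψ : ι) : G → ℂ) = funMap (α ^ j) (ψ : G → ℂ) := by
    intro j
    induction j with
    | zero =>
      intro ψ
      rw [pow_zero, pow_zero]
      funext x
      simp only [funMap]
      rw [inv_one]
      rfl
    | succ j ih =>
      intro ψ
      rw [pow_succ', pow_succ', FI4E.funMap_mul, ← ih ψ]
      rfl
  have hamj : ∀ j : ℕ, am (α ^ j) H = H := by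
    intro j
    induction j with
    | zero => rw [pow_zero, am_one]
    | succ j ih => rw [pow_succ', am_mul, ih, hαH]
  let E : Matrix ι ι ℂ := fun φ ψ => EE p H φ ψ
  have hsum : ∀ F : (G → ℂ) → ℂ, ∑ᶠ ψ ∈ Blk M χ H, F ψ = ∑ ψ : ι, F ψ := by
    intro F
    rw [← finsum_set_coe_eq_finsum_mem, finsum_eq_sum_of_fintype]
  have htr : ∀ j : ℕ, Matrix.trace (E * BTR_pm σ ^ j) = tL p M χ H (α ^ j) := by
    intro j
    rw [BTR_pow, BTR_trace]
    unfold tL tS
    rw [hsum]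
    refine Finset.sum_congr rfl fun ψ _ => ?_
    change EE p H (((σ ^ j) ψ : ι) : G → ℂ) ψ = _
    rw [hσj]
  have hEEid : E * E = E := by
    ext φ ψ
    rw [Matrix.mul_apply]
    have h1 := (hQEI p M hM G H (Blk M χ H) (hBCL G M χ H)).1 φ.1 φ.2 ψ.1 ψ.2
    rw [hsum] at h1
    exact h1
  have hcom : BTR_pm σ * E = E * BTR_pm σ := by
    ext φ ψ
    obtain ⟨ψ', rfl⟩ := σ.surjective ψ
    rw [BTR_left, BTR_right]
    change EE p H ((σ φ : ι) : G → ℂ) ((σ ψ' : ι) : G → ℂ) = EE p H φ ψ'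
    rw [hσ, hσ, hEE]
  have hpow : BTR_pm σ ^ m = 1 := by
    rw [BTR_pow]
    have h1 : σ ^ m = 1 := by
      ext1 ψ
      apply Subtype.ext
      rw [hσj, hα]
      funext x
      simp only [funMap]
      rw [inv_one]
      rfl
    rw [h1, BTR_one]
  have hrat : ∀ j : ℕ, ∃ r : ℚ, Matrix.trace (E * BTR_pm σ ^ j) = r := by
    intro j
    rw [htr]
    exact hRAT p M hM G χ H (α ^ j) (hamj j)
  obtain ⟨⟨a, ha⟩, hj⟩ := hBTP ι E (BTR_pm σ) m hm hEEid hcom.symm hpow hrat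
  refine ⟨⟨a, ?_⟩, fun j hjm => ?_⟩
  · rw [← ha]
    exact Finset.sum_congr rfl fun j _ => (htr j).symm
  · have h2 := hj j hjm
    rw [htr] at h2
    have h3 := htr 1
    rw [pow_one, pow_one] at h3
    rw [h2, h3]

end Pool.Agent.FI4B
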